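import Pool.Agent.Helper17.FP.Stmts

/-!
EXR: few exceptional `r`.
-/

set_option autoImplicit false

open Finset

namespace Pool.Agent.Helper17.FP

open Pool.Agent.Helper17.SO Pool.Agent.Helper17.SV

theorem exr_tail (z1 zb : ℕ) (hz : z1 ≠ 0) (h : z1 ≤ zb) :
    ∑ p ∈ PP z1 zb, ((p : ℝ) ^ 2)⁻¹ ≤ 1 / (z1 : ℝ) := by
  calc ∑ p ∈ PP z1 zb, ((p : ℝ) ^ 2)⁻¹ ≤ ∑ p ∈ Ioc z1 zb, ((p : ℝ) ^ 2)⁻¹ :=
        Finset.sum_le_sum_of_subset_of_nonneg (Finset.filter_subset _ _)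
          (fun p _ _ => by positivity)
    _ ≤ (z1 : ℝ)⁻¹ - (zb : ℝ)⁻¹ := sum_Ioc_inv_sq_le_sub hz h
    _ ≤ 1 / (z1 : ℝ) := by
        rw [one_div]
        have : (0 : ℝ) ≤ (zb : ℝ)⁻¹ := by positivity
        linarith

theorem exr_div {lam : ℕ} (hW : ∀ r, 0 ≤ wt lam r) {C : ℝ} (hC : 0 < C)
    (hD : ∀ p R : ℕ, p.Prime →
      ∑ r ∈ (Ioc 0 R).filter (fun r => p ∣ r), (wt lam r : ℝ) ≤ C * ((R : ℝ) / p))
    (R z1 zb : ℕ) (hz : z1 ≠ 0) (h : z1 ≤ zb) :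
    ∑ r ∈ Ioc R (2 * R), (wt lam r : ℝ) *
      ∑ p ∈ (PP z1 zb).filter (fun p => p ∣ r), 1 / (p : ℝ) ≤ 2 * C * ((R : ℝ) / z1) := by
  have e1 : ∑ r ∈ Ioc R (2 * R), (wt lam r : ℝ) *
      ∑ p ∈ (PP z1 zb).filter (fun p => p ∣ r), 1 / (p : ℝ) =
      ∑ p ∈ PP z1 zb, (1 / (p : ℝ)) *
        ∑ r ∈ (Ioc R (2 * R)).filter (fun r => p ∣ r), (wt lam r : ℝ) := by
    calc ∑ r ∈ Ioc R (2 * R), (wt lam r : ℝ) *
          ∑ p ∈ (PP z1 zb).filter (fun p => p ∣ r), 1 / (p : ℝ)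
        = ∑ r ∈ Ioc R (2 * R), ∑ p ∈ PP z1 zb,
            if p ∣ r then (1 / (p : ℝ)) * (wt lam r : ℝ) else 0 := by
          refine Finset.sum_congr rfl (fun r _ => ?_)
          rw [Finset.sum_filter, Finset.mul_sum]
          refine Finset.sum_congr rfl (fun p _ => ?_)
          split_ifs
          · ring
          · ring
      _ = ∑ p ∈ PP z1 zb, ∑ r ∈ Ioc R (2 * R),
            if p ∣ r then (1 / (p : ℝ)) * (wt lam r : ℝ) else 0 := Finset.sum_comm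
      _ = _ := by
          refine Finset.sum_congr rfl (fun p _ => ?_)
          rw [Finset.sum_filter, Finset.mul_sum]
          refine Finset.sum_congr rfl (fun r _ => ?_)
          split_ifs
          · ring
          · ring
  rw [e1]
  calc ∑ p ∈ PP z1 zb, (1 / (p : ℝ)) *
        ∑ r ∈ (Ioc R (2 * R)).filter (fun r => p ∣ r), (wt lam r : ℝ)
      ≤ ∑ p ∈ PP z1 zb, (2 * C * R) * ((p : ℝ) ^ 2)⁻¹ := by
        refine Finset.sum_le_sum (fun p hp => ?_)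
        unfold PP at hp
        have hpp : p.Prime := (mem_filter.1 hp).2
        have hp0 : (0 : ℝ) < p := by exact_mod_cast hpp.pos
        have h1 : ∑ r ∈ (Ioc R (2 * R)).filter (fun r => p ∣ r), (wt lam r : ℝ) ≤
            ∑ r ∈ (Ioc 0 (2 * R)).filter (fun r => p ∣ r), (wt lam r : ℝ) := by
          refine Finset.sum_le_sum_of_subset_of_nonneg ?_ (fun r _ _ => ?_)
          · intro r hr
            rw [mem_filter, mem_Ioc] at hr ⊢
            exact ⟨⟨by omega, hr.1.2⟩, hr.2⟩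
          · exact_mod_cast hW r
        have h2 := h1.trans (hD p (2 * R) hpp)
        calc (1 / (p : ℝ)) * ∑ r ∈ (Ioc R (2 * R)).filter (fun r => p ∣ r), (wt lam r : ℝ)
            ≤ (1 / (p : ℝ)) * (C * (((2 * R : ℕ) : ℝ) / p)) :=
              mul_le_mul_of_nonneg_left h2 (by positivity)
          _ = (2 * C * R) * ((p : ℝ) ^ 2)⁻¹ := by
              push_cast
              field_simp
    _ = (2 * C * R) * ∑ p ∈ PP z1 zb, ((p : ℝ) ^ 2)⁻¹ := by rw [Finset.mul_sum]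
    _ ≤ (2 * C * R) * (1 / (z1 : ℝ)) :=
        mul_le_mul_of_nonneg_left (exr_tail z1 zb hz h) (by positivity)
    _ = 2 * C * ((R : ℝ) / z1) := by ring

theorem st_EXR (hWNN : ST_WNN) (hWDIV : ST_WDIV) (hVAR2 : ST_VAR2) : ST_EXR := by
  intro lam hlam
  obtain ⟨C1, hC1, h1⟩ := hWDIV lam hlam
  obtain ⟨C2, hC2, h2⟩ := hVAR2 lam hlam
  refine ⟨2 * C2 + 2 * C1, by positivity, ?_⟩
  intro R z1 zs zb hz1 hzs hzb S hS
  have hz0 : z1 ≠ 0 := by omega
  have hW := hWNN lam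
  have hv1 := h2 R z1 zs 1 hz1 hzs (Or.inl rfl)
  have hv2 := h2 R z1 zs (-1) hz1 hzs (Or.inr rfl)
  have hv3 := exr_div hW hC1 h1 R z1 zb hz0 hzb
  have hnn : ∀ r, (0 : ℝ) ≤ ∑ p ∈ (PP z1 zb).filter (fun p => p ∣ r), 1 / (p : ℝ) := fun r =>
    Finset.sum_nonneg (fun p _ => by positivity)
  have hWr : ∀ r, (0 : ℝ) ≤ (wt lam r : ℝ) := fun r => by exact_mod_cast hW r
  have hstep : ∑ r ∈ S, (wt lam r : ℝ) ≤
      ∑ r ∈ Ioc R (2 * R), ((wt lam r : ℝ) * (FF lam 1 z1 zs r) ^ 2 +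
        (wt lam r : ℝ) * (FF lam (-1) z1 zs r) ^ 2 +
        (wt lam r : ℝ) * ∑ p ∈ (PP z1 zb).filter (fun p => p ∣ r), 1 / (p : ℝ)) := by
    calc ∑ r ∈ S, (wt lam r : ℝ)
        ≤ ∑ r ∈ S, ((wt lam r : ℝ) * (FF lam 1 z1 zs r) ^ 2 +
            (wt lam r : ℝ) * (FF lam (-1) z1 zs r) ^ 2 +
            (wt lam r : ℝ) * ∑ p ∈ (PP z1 zb).filter (fun p => p ∣ r), 1 / (p : ℝ)) := by
          refine Finset.sum_le_sum (fun r hr => ?_)
          have hw := hWr r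
          have hn := hnn r
          have ha : (0 : ℝ) ≤ (FF lam 1 z1 zs r) ^ 2 := sq_nonneg _
          have hb : (0 : ℝ) ≤ (FF lam (-1) z1 zs r) ^ 2 := sq_nonneg _
          have hkey : (1 : ℝ) ≤ (FF lam 1 z1 zs r) ^ 2 + (FF lam (-1) z1 zs r) ^ 2 +
              ∑ p ∈ (PP z1 zb).filter (fun p => p ∣ r), 1 / (p : ℝ) := by
            rcases (hS r hr).2 with h | h | h
            · nlinarith
            · nlinarith
            · linarith
          calc (wt lam r : ℝ) = (wt lam r : ℝ) * 1 := (mul_one _).symm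
            _ ≤ (wt lam r : ℝ) * ((FF lam 1 z1 zs r) ^ 2 + (FF lam (-1) z1 zs r) ^ 2 +
              ∑ p ∈ (PP z1 zb).filter (fun p => p ∣ r), 1 / (p : ℝ)) :=
                mul_le_mul_of_nonneg_left hkey hw
            _ = _ := by ring
      _ ≤ _ := by
          refine Finset.sum_le_sum_of_subset_of_nonneg (fun r hr => (hS r hr).1)
            (fun r _ _ => ?_)
          have hw := hWr r
          have hn := hnn r
          positivity
  rw [Finset.sum_add_distrib, Finset.sum_add_distrib] at hstep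
  have hs : (0 : ℝ) ≤ Real.sqrt R * (zs : ℝ) ^ 2 := by positivity
  have hR : (0 : ℝ) ≤ (R : ℝ) / z1 := by positivity
  have hC1s : 0 ≤ C1 * (Real.sqrt R * (zs : ℝ) ^ 2) := mul_nonneg hC1.le hs
  nlinarith

end Pool.Agent.Helper17.FP
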