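import Pool.Agent.Helper17.FP.Stmts

/-!
WNN: the weights are nonnegative.
-/

set_option autoImplicit false

open Finset

namespace Pool.Agent.Helper17.FP

open Pool.Agent.Helper17.SO Pool.Agent.Helper17.SV

theorem wnn_chi_mul (lam a b : ℕ) : chi lam (a * b) = chi lam a * chi lam b := by
  unfold chi
  by_cases ha : a % 2 = 1
  · by_cases hb : b % 2 = 1
    · have hab : (a * b) % 2 = 1 := by rw [Nat.mul_mod, ha, hb]
      have ha0 : NeZero a := ⟨fun h => by rw [h] at ha; omega⟩
      have hb0 : NeZero b := ⟨fun h => by rw [h] at hb; omega⟩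
      rw [if_pos ha, if_pos hb, if_pos hab, jacobiSym.mul_right]
    · have hb2 : b % 2 = 0 := by omega
      have hab : ¬ (a * b) % 2 = 1 := by
        rw [Nat.mul_mod, hb2, mul_zero]
        decide
      rw [if_neg hb, if_neg hab, mul_zero]
  · have ha2 : a % 2 = 0 := by omega
    have hab : ¬ (a * b) % 2 = 1 := by
      rw [Nat.mul_mod, ha2, zero_mul]
      decide
    rw [if_neg ha, if_neg hab, zero_mul]

theorem wnn_chi_one (lam : ℕ) : chi lam 1 = 1 := by
  unfold chi
  rw [if_pos (by decide), jacobiSym.one_right]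

theorem wnn_chi_zero (lam : ℕ) : chi lam 0 = 0 := by
  unfold chi
  rw [if_neg (by decide)]

theorem wnn_chi_pow (lam p i : ℕ) : chi lam (p ^ i) = (chi lam p) ^ i := by
  induction i with
  | zero => rw [pow_zero, pow_zero, wnn_chi_one]
  | succ n ih => rw [pow_succ, wnn_chi_mul, ih, pow_succ]

theorem wnn_chi_cases (lam d : ℕ) : chi lam d = 0 ∨ chi lam d = 1 ∨ chi lam d = -1 := by
  unfold chi
  split_ifs with h
  · exact jacobiSym.trichotomy _ _
  · exact Or.inl rfl

theorem wnn_geom (c : ℤ) (hc : c = 0 ∨ c = 1 ∨ c = -1) (n : ℕ) :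
    0 ≤ ∑ i ∈ range (n + 1), c ^ i := by
  rcases hc with h | h | h
  · rw [h]
    exact Finset.sum_nonneg (fun i _ => by positivity)
  · rw [h]
    exact Finset.sum_nonneg (fun i _ => by positivity)
  · rw [h, neg_one_geom_sum]
    split_ifs <;> norm_num

/-- the character as an arithmetic function -/
def wnn_f (lam : ℕ) : ArithmeticFunction ℤ := ⟨chi lam, wnn_chi_zero lam⟩

theorem wnn_f_mult (lam : ℕ) : (wnn_f lam).IsMultiplicative :=
  ⟨wnn_chi_one lam, fun {a b} _ => wnn_chi_mul lam a b⟩

theorem st_WNN : ST_WNN := by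
  intro lam r
  rcases Nat.eq_zero_or_pos r with h0 | hr
  · rw [h0]
    unfold wt
    rw [Nat.divisors_zero, Finset.sum_empty]
  have hg : (wnn_f lam * (ArithmeticFunction.zeta : ArithmeticFunction ℤ)).IsMultiplicative :=
    (wnn_f_mult lam).mul ArithmeticFunction.isMultiplicative_zeta.natCast
  have e : ∀ n : ℕ, (wnn_f lam * (ArithmeticFunction.zeta : ArithmeticFunction ℤ)) n =
      wt lam n := by
    intro n
    rw [ArithmeticFunction.coe_mul_zeta_apply]
    rfl
  rw [← e r, hg.multiplicative_factorization _ hr.ne']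
  refine Finset.prod_nonneg (fun p hp => ?_)
  have hpp : p.Prime := Nat.prime_of_mem_primeFactors (Nat.support_factorization r ▸ hp)
  change 0 ≤ (wnn_f lam * (ArithmeticFunction.zeta : ArithmeticFunction ℤ))
    (p ^ r.factorization p)
  rw [e]
  unfold wt
  rw [Nat.sum_divisors_prime_pow hpp]
  have e2 : ∑ i ∈ range (r.factorization p + 1), chi lam (p ^ i) =
      ∑ i ∈ range (r.factorization p + 1), (chi lam p) ^ i :=
    Finset.sum_congr rfl (fun i _ => wnn_chi_pow lam p i)
  rw [e2]
  exact wnn_geom _ (wnn_chi_cases lam p) _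

end Pool.Agent.Helper17.FP
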